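import Mathlib
import Pool.Agent.H373R2.T7.RS6

/-!
Representations of `n` as the sum of a prime and `2 * m ^ 2` with `m` restricted to an arbitrary set `S` of integers up to `x`: for
all but a proportion `1 / log^U x` of the `n ≤ N` (`N` of the order of magnitude of `x^2`), and more generally of the
`k`-tuples, the number of `m ∈ S` with all `n_i - 2 * m ^ 2` prime is given by the number of `m ∈ S` with all these
differences positive and free of primes `≤ z`, for `z` a power of `log x`.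
-/

namespace Pool.Agent.Results.MP_6b8fc7_nt.RestrictedSquares
open Finset Polynomial Pool.Agent.H373R2.T7.RS

open Classical in
theorem result (k : ℕ) (B : ℕ) (hB : 1 ≤ B) (U : ℕ) (ε : ℝ) (hε : 0 < ε) :
    ∃ B₀ : ℕ, ∀ E : ℕ, ∃ x₀ : ℕ, ∀ x : ℕ, x₀ ≤ x → ∀ N : ℕ, N ≤ B * x ^ 2 → x ^ 2 ≤ B * N →
      ∀ z : ℕ, Real.log x ^ B₀ ≤ z → (z : ℝ) ≤ Real.log x ^ E → ∀ S : Finset ℕ, S ⊆ Icc 1 x →
      (((Fintype.piFinset (fun _ : Fin k => Icc 1 N)).filter (fun n =>
        ¬ |(primeDiff (fun m => 2 * m ^ 2) n S : ℝ) - expectedDiff (fun m => 2 * m ^ 2) 2 n z x S| ≤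
          ε * expectedDiff (fun m => 2 * m ^ 2) 2 n z x S + x / Real.log x ^ U)).card : ℝ) ≤ (N : ℝ) ^ k / Real.log x ^ U :=
  diffs_of_one k (fun m => 2 * m ^ 2) (C 2 * X ^ 2) (fun n => by simp) 2 (natDegree_C_mul_X_pow 2 2 (by norm_num)) (by norm_num)
    (by rw [leadingCoeff_C_mul_X_pow]; norm_num) B hB U ε hε

end Pool.Agent.Results.MP_6b8fc7_nt.RestrictedSquares
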